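import Pool.Agent.SDD.Energy

/-!
# Pinned distances to sets of large additive energy

Partial answer to Q1, for every pin.  There is an absolute `c > 0` such that for every set `P` of
`n ≥ 2` points of the plane with at least `n³ / K` additive quadruples `a + b = c + d`, every point `x`
of the plane sees at least `c n / (K¹⁷ log n)` distinct distances to the other points of `P`.
-/

set_option autoImplicit false

namespace Pool.Agent.Results.MP_b8d6bb_co.AdditiveEnergy

theorem result : ∃ c : ℝ, 0 < c ∧ ∀ (P : Finset ℂ), 2 ≤ P.card → ∀ K : ℝ,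
    (P.card : ℝ) ^ 3 ≤
      K * ((((P ×ˢ P) ×ˢ (P ×ˢ P)).filter (fun q => q.1.1 + q.1.2 = q.2.1 + q.2.2)).card : ℝ) →
    ∀ x : ℂ, c * (P.card : ℝ) / (K ^ 17 * Real.log P.card) ≤
        (((P.erase x).image (fun y => dist x y)).card : ℝ) :=
  Pool.Agent.SDD.pinned_energy

end Pool.Agent.Results.MP_b8d6bb_co.AdditiveEnergy
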