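import Pool.Agent.CMD.Fin

/-!
MP_b8d6bb_co, Q1: pinned distances of arbitrary subsets of boxes in arbitrary generalised
arithmetic progressions of the plane (generators linearly independent over the rationals).
-/

set_option autoImplicit false

namespace Pool.Agent.Results.MP_b8d6bb_co.AllProgressions

theorem result (d : ℕ) (v : Fin d → ℂ) (hv : LinearIndependent ℚ v) :
    ∃ c : ℝ, 0 < c ∧ ∀ H : ℕ, 1 ≤ H → ∀ (x₀ t : ℂ) (P : Finset ℂ), 2 ≤ P.card →
      (∀ y ∈ P, ∃ a : Fin d → ℤ, (∀ j, |a j| ≤ (H : ℤ)) ∧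
        y = x₀ + t * ∑ j, (a j : ℂ) * v j) →
      c * (P.card : ℝ) ^ 2 * min ((P.card : ℝ) / (H : ℝ) ^ d)
          (1 / √(Real.log (2 + (H : ℝ) ^ d / P.card) * Real.log (2 * P.card + (H : ℝ) ^ d))) ≤
        ∑ x ∈ P, ((((P.erase x).image (fun y => dist x y)).card : ℕ) : ℝ) :=
  Pool.Agent.CMD.gap_all Pool.Agent.CMD.thmA d v hv

end Pool.Agent.Results.MP_b8d6bb_co.AllProgressions
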