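import Pool.Agent.DLP.Main

/-!
# Pinned distances of subsets of lattices in rectangles

Partial answer to Q1: for every lattice in the plane there is `c > 0` such that every set `S` of
`n ≥ 2` points of a similar copy `x₀ + t (ℤ b₁ + ℤ b₂)` of it, contained in a rectangle (in any
position) with sides `t α` and `t β`, satisfies
`∑_{x ∈ S} #{|x - y| : y ∈ S, y ≠ x} ≥ c n² / √(log (2 + αβ/n) · log (2 n + αβ))`.
For dense subsets of lattice rectangles of any shape (`αβ ≤ K n`) the points of `S` thus see on average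
`c(K) n / √(log n)` distances, the bound of Erdős's conjecture in its pinned form.
-/

set_option autoImplicit false

open scoped RealInnerProductSpace

namespace Pool.Agent.Results.MP_b8d6bb_co.PinnedLattices

theorem result (b₁ b₂ : EuclideanSpace ℝ (Fin 2)) (hb : LinearIndependent ℝ ![b₁, b₂]) :
    ∃ c : ℝ, 0 < c ∧ ∀ (S : Finset (EuclideanSpace ℝ (Fin 2))) (x₀ : EuclideanSpace ℝ (Fin 2))
      (t α β : ℝ) (e : OrthonormalBasis (Fin 2) ℝ (EuclideanSpace ℝ (Fin 2))),
      2 ≤ S.card → 0 < t →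
      (∀ x ∈ S, ∃ m n : ℤ, x = x₀ + t • ((m : ℝ) • b₁ + (n : ℝ) • b₂)) →
      (∀ x ∈ S, ∀ y ∈ S, |⟪e 0, x - y⟫| ≤ t * α ∧ |⟪e 1, x - y⟫| ≤ t * β) →
      c * (S.card : ℝ) ^ 2 / √(Real.log (2 + α * β / S.card) * Real.log (2 * S.card + α * β)) ≤
        ∑ x ∈ S, (((S.erase x).image (fun y => dist x y)).card : ℝ) :=
  Pool.Agent.DLP.lattice_pinned b₁ b₂ hb

end Pool.Agent.Results.MP_b8d6bb_co.PinnedLattices
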