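import Pool.Agent.GAPD.Unif

/-!
# Pinned distances in generalised arithmetic progressions of any rank

Partial answer to Q1.  For every rank `d` there is `c > 0`, depending only on `d`, with the following
property.  Let `v₁, …, v_d` be complex numbers, linearly independent over `ℚ`, whose rational span is
not `z K` for any complex number `z` and any subfield `K` of `ℂ` which is closed under complex
conjugation and contains a non-real number.  Then for every similar copy of the progression
`{∑ a_j v_j : |a_j| ≤ H}`, every subset `P` of it with at least two points and every point `x` of it,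
the number of distinct distances from `x` to points of `P` is at least `c |P|² / H^d`.
-/

set_option autoImplicit false

open ComplexConjugate

namespace Pool.Agent.Results.MP_b8d6bb_co.PinnedProgressions

theorem result (d : ℕ) :
    ∃ c : ℝ, 0 < c ∧ ∀ v : Fin d → ℂ, LinearIndependent ℚ v →
      (∀ (K : Subfield ℂ) (z : ℂ), (∀ w ∈ K, conj w ∈ K) → (∃ w ∈ K, w.im ≠ 0) →
        (Submodule.span ℚ (Set.range v) : Set ℂ) ≠ (fun w => z * w) '' (K : Set ℂ)) →
      ∀ H : ℕ, 1 ≤ H → ∀ (x₀ t x : ℂ) (P : Finset ℂ), 2 ≤ P.card →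
      (∀ y ∈ insert x P, ∃ a : Fin d → ℤ, (∀ j, |a j| ≤ (H : ℤ)) ∧
        y = x₀ + t * ∑ j, (a j : ℂ) * v j) →
      c * (P.card : ℝ) ^ 2 / (H : ℝ) ^ d ≤ (((P.erase x).image (fun y => dist x y)).card : ℝ) := by
  obtain ⟨c, hc, h⟩ := Pool.Agent.GAPD.gap_pinned_unif d
  refine ⟨c, hc, fun v hv hK H hH x₀ t x P hP hbox => h v hv hK H hH x₀ t x P hP ?_⟩
  intro y hy
  obtain ⟨a, ha, hay⟩ := hbox y hy
  exact ⟨a, (Pool.Agent.GAPD.nn_le_iff a H).2 ha, hay⟩

end Pool.Agent.Results.MP_b8d6bb_co.PinnedProgressions
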